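import Pool.Agent.Q17.DC.Stm
import Pool.Agent.Q18.KRX.Poset

/-!
# Statements of the parts of project OS (Dade's alternating sums for direct products)

Library: `E`, `E_retract`, `E_image` in `Q18.KRX.Poset`; `t_PRD` (alternating sums of products of posets)
in `Q177.WR.PRD`; `toE`, `WC_eq_E`, `mem_Ch` in `Q92.WR.TOPX` (chains as finite sets); `orbit_sum` in
`Y63.KR.Basic`; `Ch`, `Ns`, `altX`, `indc` in `Q17.DC.Defs`; `t_ZPR` (characters of products) in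
`Q150.WR.ZPR`; `IsBlock`, `IsDefectGroup`, `omega`, `blockCoeff` in `H254R3.IN.Defs`.
-/

set_option autoImplicit false

open scoped Classical

noncomputable section

namespace Pool.Agent.Q17.OS

open Pool.Agent.H254R3.IN Pool.Agent.Y63.KR Pool.Agent.Q17.DC

/-- JOB ADJ. Inversion on finite posets. Proof. (1) `f` is constructed by well-founded recursion,
`f x = F x - ∑ x' < x, f x'`. (2) Let `h y` be the sum of the `f x` with `κ x = y`. Then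
`∑ y' ≤ y, h y' = ∑ x with κ x ≤ y, f x = ∑ x ≤ ι y, f x = F (ι y) = ∑ y' ≤ y, g y'` for all `y`, so
`h = g` by well-founded induction; and `∑ x, f x * w (κ x) = ∑ y, h y * w y`. -/
def S_ADJ : Prop := ∀ (R : Type) [CommRing R] (X : Type) [Fintype X] [PartialOrder X],
  (∀ F : X → R, ∃ f : X → R, ∀ x, F x = ∑ x', if x' ≤ x then f x' else 0) ∧
  ∀ (Y : Type) [Fintype Y] [PartialOrder Y] (κ : X → Y) (ι : Y → X),
  (∀ x y, κ x ≤ y ↔ x ≤ ι y) → ∀ (F f : X → R) (g : Y → R),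
  (∀ x, F x = ∑ x', if x' ≤ x then f x' else 0) →
  (∀ y, F (ι y) = ∑ y', if y' ≤ y then g y' else 0) → ∀ w : Y → R,
  ∑ x, f x * w (κ x) = ∑ y, g y * w y

/-- the alternating sum over the chains of `p`-subgroups of `X` which strictly contain `Z` and are
normalised by `K` -/
def WZ (p : ℕ) {Γ : Type} [Group Γ] (X Z K : Subgroup Γ) : ℤ :=
  ∑ᶠ σ : {σ : Set (Subgroup Γ) // Ch p X Z σ},
    (-1 : ℤ) ^ σ.1.ncard * (if K ≤ chainStabilizer σ.1 then 1 else 0)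

/-- JOB WPX. The alternating sums `WZ` for direct products. Proof. `WZ p X Z K` is `E` of the finite set
of the `p`-subgroups `P` of `X` with `Z < P` normalised by `K` (as in `WC_eq_E` in `Q92.WR.TOPX`). For
`Γ₁ × Γ₂` the map `P ↦ (P.map fst).prod (P.map snd)` is an inflationary retraction of this set (`E_retract`
for the dual order, or repeat its proof; products of `p`-groups are `p`-groups) onto the set of the
`P₁.prod P₂` with `Z₁ ≤ P₁`, `Z₂ ≤ P₂`, not both equal, `P₁`, `P₂` normalised by the projections of `K`.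
By `E_image` and `t_PRD` (for the types `{P // Z₁ ≤ P}` and `{P // Z₂ ≤ P}` with least elements `Z₁`,
`Z₂`, or for two factors directly) `E` of it is the product. -/
def S_WPX : Prop := ∀ (p : ℕ) [Fact p.Prime] (Γ₁ Γ₂ : Type) [Group Γ₁] [Group Γ₂] [Finite Γ₁]
  [Finite Γ₂] (X₁ Z₁ : Subgroup Γ₁) (X₂ Z₂ : Subgroup Γ₂) [Z₁.Normal] [Z₂.Normal], Z₁ ≤ X₁ →
  Z₂ ≤ X₂ → IsPGroup p Z₁ → IsPGroup p Z₂ → ∀ K : Subgroup (Γ₁ × Γ₂),
  WZ p (X₁.prod X₂) (Z₁.prod Z₂) K = WZ p X₁ Z₁ (K.map (MonoidHom.fst Γ₁ Γ₂)) *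
    WZ p X₂ Z₂ (K.map (MonoidHom.snd Γ₁ Γ₂))

/-- the alternating sum of a function of the stabiliser over all chains -/
def CS {R : Type} [CommRing R] (p : ℕ) {Γ : Type} [Group Γ] (X Z : Subgroup Γ)
    (F : Subgroup Γ → R) : R :=
  ∑ᶠ σ : {σ : Set (Subgroup Γ) // Ch p X Z σ}, (-1 : R) ^ σ.1.ncard * F (chainStabilizer σ.1)

/-- JOB PRS (`t_PRS : S_ADJ → S_WPX → S_PRS`). The product formula. Proof. By `S_ADJ` (1) for the finite
poset of the subgroups of `Γ` write `F H = ∑ K ≤ H, f K`; then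
`CS p X Z F = ∑ K, f K * WZ p X Z K` (exchange the sums). Apply this to `Γ₁ × Γ₂` and `S_WPX`, then
`S_ADJ` (2) for `X` = the subgroups of `Γ₁ × Γ₂`, `Y` = the pairs of subgroups,
`κ K = (K.map fst, K.map snd)`, `ι (H₁, H₂) = H₁.prod H₂`, `g (H₁, H₂) = f₁ H₁ * f₂ H₂`. -/
def S_PRS : Prop := ∀ (R : Type) [CommRing R] (p : ℕ) [Fact p.Prime] (Γ₁ Γ₂ : Type) [Group Γ₁]
  [Group Γ₂] [Finite Γ₁] [Finite Γ₂] (X₁ Z₁ : Subgroup Γ₁) (X₂ Z₂ : Subgroup Γ₂) [Z₁.Normal]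
  [Z₂.Normal], Z₁ ≤ X₁ → Z₂ ≤ X₂ → IsPGroup p Z₁ → IsPGroup p Z₂ →
  ∀ (F : Subgroup (Γ₁ × Γ₂) → R) (F₁ : Subgroup Γ₁ → R) (F₂ : Subgroup Γ₂ → R),
  (∀ H₁ H₂, F (H₁.prod H₂) = F₁ H₁ * F₂ H₂) →
  CS p (X₁.prod X₂) (Z₁.prod Z₂) F = CS p X₁ Z₁ F₁ * CS p X₂ Z₂ F₂

/-- JOB ALX. The orbit formula (as in `orbit_sum` in `Y63.KR.Basic`; the stabiliser of the chain `σ` as a
set under `X` fixes its members, so it is `Ns X σ`). -/
def S_ALX : Prop := ∀ (p : ℕ) [Fact p.Prime] (Γ : Type) [Group Γ] [Finite Γ] (X Z : Subgroup Γ)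
  [Z.Normal] (w : Set (Subgroup Γ) → ℤ), (∀ σ, Ch p X Z σ → ∀ g ∈ X, w (conjSub g '' σ) = w σ) →
  (Nat.card X : ℤ) * altX p X Z w = ∑ᶠ σ : {σ : Set (Subgroup Γ) // Ch p X Z σ},
    (-1 : ℤ) ^ σ.1.ncard * ((Nat.card (Ns X σ.1) : ℤ) * w σ.1)

/-- the characters counted in Dade's conjectures: `ψ` is an irreducible character of `G ∩ H`, `H` the
stabiliser of a chain in `E`, in a block which induces the block `B` of `G`, over the linear character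
`lam` of the central subgroup `Zc` of `G`, of defect `d`, and its stabiliser in `H`, times `G`, is
`U` -/
structure Cnt {E : Type} [Group E] (p : ℕ) (O : ValuationSubring ℂ) (G Zc : Subgroup E)
    (lam : E → ℂ) (B : Set (G → ℂ)) (U : Set E) (d : ℕ) (H : Subgroup E)
    (ψ : (G ⊓ H : Subgroup E) → ℂ) : Prop where
  irr : IsIrr ψ
  ind : ∀ χ ∈ B, ∀ x : G, omega χ x - indc G (G ⊓ H) ψ (x : E) ∈ O.nonunits
  lin : ∀ x y : (G ⊓ H : Subgroup E), (x : E) ∈ Zc → ψ (x * y) = lam x * ψ y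
  defect : ∃ n : ℕ, (n : ℂ) = ψ 1 ∧
    (Nat.card (G ⊓ H : Subgroup E)).factorization p = d + n.factorization p
  stab : {e : E | ∃ g ∈ G, ∃ h ∈ H, e = g * h ∧
    ∀ x x' : (G ⊓ H : Subgroup E), (x' : E) = h * x * h⁻¹ → ψ x' = ψ x} = U

/-- the number of these characters -/
def cn {E : Type} [Group E] (p : ℕ) (O : ValuationSubring ℂ) (G Zc : Subgroup E)
    (lam : E → ℂ) (B : Set (G → ℂ)) (U : Set E) (d : ℕ) (H : Subgroup E) : ℕ :=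
  Nat.card {ψ : (G ⊓ H : Subgroup E) → ℂ // Cnt p O G Zc lam B U d H ψ}

/-- the products of a member of `B₁` and a member of `B₂` -/
def PB {E₁ E₂ : Type} [Group E₁] [Group E₂] {G₁ : Subgroup E₁} {G₂ : Subgroup E₂}
    (B₁ : Set (G₁ → ℂ)) (B₂ : Set (G₂ → ℂ)) : Set (G₁.prod G₂ → ℂ) :=
  {χ | ∃ χ₁ ∈ B₁, ∃ χ₂ ∈ B₂, ∀ x : G₁.prod G₂,
    χ x = χ₁ ⟨x.1.1, x.2.1⟩ * χ₂ ⟨x.1.2, x.2.2⟩}

/-- JOB PCN. The characters of a direct product. Proof. The irreducible characters of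
`L = (G₁ ⊓ H₁).prod (G₂ ⊓ H₂)` are the products `ψ` of an irreducible character `ψ₁` of `G₁ ⊓ H₁` and
one, `ψ₂`, of `G₂ ⊓ H₂`, uniquely. For these: `indc` and `omega` are multiplicative, so if `ψ₁`,
`ψ₂` satisfy `ind` so does `ψ` (products of elements of `O`), and conversely (take `x = (x₁, 1)`;
`omega χ₂ 1 = 1 = indc G₂ (G₂ ⊓ H₂) ψ₂ 1`; `B₁`, `B₂` are not empty). `lin`: take `(x₁, 1)`,
`lam₂ 1 = 1`, `ψ₂ 1 ≠ 0`. The defects add up. The set in `stab` for `ψ` is the product of those for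
`ψ₁`, `ψ₂`, and nonempty sets are determined by their product. -/
def S_PCN : Prop := ∀ (p : ℕ) [Fact p.Prime] (O : ValuationSubring ℂ), (p : ℂ) ∈ O.nonunits →
  ∀ (E₁ E₂ : Type) [Group E₁] [Group E₂] [Fintype E₁] [Fintype E₂] (G₁ Z₁ : Subgroup E₁)
  (G₂ Z₂ : Subgroup E₂) (lam₁ : E₁ → ℂ) (lam₂ : E₂ → ℂ), lam₁ 1 = 1 → lam₂ 1 = 1 →
  ∀ (B₁ : Set (G₁ → ℂ)) (B₂ : Set (G₂ → ℂ)), IsBlock O B₁ → IsBlock O B₂ →
  ∀ (U₁ : Set E₁) (U₂ : Set E₂) (d : ℕ) (H₁ : Subgroup E₁) (H₂ : Subgroup E₂),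
  cn p O (G₁.prod G₂) (Z₁.prod Z₂) (fun x => lam₁ x.1 * lam₂ x.2) (PB B₁ B₂) (U₁ ×ˢ U₂) d
      (H₁.prod H₂) =
    ∑ q ∈ Finset.range (d + 1), cn p O G₁ Z₁ lam₁ B₁ U₁ q H₁ *
      cn p O G₂ Z₂ lam₂ B₂ U₂ (d - q) H₂

/-- JOB PBK. Blocks of direct products. Proof. `omega` is multiplicative, so the members of `PB B₁ B₂`
have congruent central characters, and a product `χ₁ χ₂` congruent to them has `χ₁ ∈ B₁`, `χ₂ ∈ B₂`
(take `(x₁, 1)`); all irreducible characters are products. `blockCoeff` is multiplicative, and the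
Sylow `p`-subgroups of the centraliser of `(x₁, x₂)` are the products. -/
def S_PBK : Prop := ∀ (p : ℕ) [Fact p.Prime] (O : ValuationSubring ℂ), (p : ℂ) ∈ O.nonunits →
  ∀ (E₁ E₂ : Type) [Group E₁] [Group E₂] [Fintype E₁] [Fintype E₂] (G₁ : Subgroup E₁)
  (G₂ : Subgroup E₂) (B₁ : Set (G₁ → ℂ)) (B₂ : Set (G₂ → ℂ)), IsBlock O B₁ → IsBlock O B₂ →
  IsBlock O (PB B₁ B₂) ∧ ∀ (D₁ : Subgroup E₁) (D₂ : Subgroup E₂), D₁ ≤ G₁ → D₂ ≤ G₂ →
  IsDefectGroup p O B₁ (D₁.subgroupOf G₁) → IsDefectGroup p O B₂ (D₂.subgroupOf G₂) →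
  IsDefectGroup p O (PB B₁ B₂) ((D₁.prod D₂).subgroupOf (G₁.prod G₂))

/-- Dade's alternating sum -/
def DA {E : Type} [Group E] (p : ℕ) (O : ValuationSubring ℂ) (G Z Zc : Subgroup E)
    (lam : E → ℂ) (B : Set (G → ℂ)) (U : Set E) (d : ℕ) : ℤ :=
  altX p G Z (fun σ => (cn p O G Zc lam B U d (chainStabilizer σ) : ℤ))

/-- JOB DPR (`t_DPR : S_PRS → S_ALX → S_PCN → S_DPR`). The product formula for Dade's alternating sums.
Proof. (1) `cn ... (chainStabilizer σ)` is invariant under conjugation of `σ` by `g ∈ G` (transport of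
`ψ`; `G` is normal, so the set in `stab` does not change: `g' (g h g⁻¹) ∈ G h`; `Zc` is central in `G`;
`indc` is invariant), so by `S_ALX` `|G| * DA = ∑ σ, (-1) ^ |σ| * |G_σ| * cn`, which is the coefficient
of `X ^ d` of `CS p G Z F`, `F H = ∑ d ≤ N, monomial d (|G ⊓ H| * cn ... d H)` in `Polynomial ℤ`, for any
`N` at least the exponent of `p` in `|E|` (`cn = 0` for larger `d`); or use `PowerSeries ℤ`. (2) By
`S_PCN` `F` for `E₁ × E₂` is multiplicative, so `S_PRS` gives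
`|G₁| |G₂| * DA d = ∑ q, |G₁| DA₁ q * |G₂| DA₂ (d - q)`. -/
def S_DPR : Prop := ∀ (p : ℕ) [Fact p.Prime] (O : ValuationSubring ℂ), (p : ℂ) ∈ O.nonunits →
  ∀ (E₁ E₂ : Type) [Group E₁] [Group E₂] [Fintype E₁] [Fintype E₂] (G₁ Z₁ C₁ : Subgroup E₁)
  (G₂ Z₂ C₂ : Subgroup E₂) [G₁.Normal] [G₂.Normal] [Z₁.Normal] [Z₂.Normal], Z₁ ≤ G₁ → Z₂ ≤ G₂ →
  IsPGroup p Z₁ → IsPGroup p Z₂ → (∀ z ∈ C₁, z ∈ G₁ ∧ ∀ g ∈ G₁, g * z = z * g) →
  (∀ z ∈ C₂, z ∈ G₂ ∧ ∀ g ∈ G₂, g * z = z * g) →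
  ∀ (lam₁ : E₁ → ℂ) (lam₂ : E₂ → ℂ), lam₁ 1 = 1 → lam₂ 1 = 1 →
  ∀ (B₁ : Set (G₁ → ℂ)) (B₂ : Set (G₂ → ℂ)), IsBlock O B₁ → IsBlock O B₂ →
  ∀ (U₁ : Set E₁) (U₂ : Set E₂) (d : ℕ),
  DA p O (G₁.prod G₂) (Z₁.prod Z₂) (C₁.prod C₂) (fun x => lam₁ x.1 * lam₂ x.2) (PB B₁ B₂)
      (U₁ ×ˢ U₂) d =
    ∑ q ∈ Finset.range (d + 1), DA p O G₁ Z₁ C₁ lam₁ B₁ U₁ q *
      DA p O G₂ Z₂ C₂ lam₂ B₂ U₂ (d - q)

end Pool.Agent.Q17.OS
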