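import Pool.Agent.Q17.OS.Stm
import Pool.Agent.Q111.OS.ADJ
import Pool.Agent.Q111.OS.PBK
import Pool.Agent.Q224.OS.PRS
import Pool.Agent.Q224.OS.ALX
import Pool.Agent.Q224.OS.WPX
import Pool.Agent.Q66.OS.Pcn
import Pool.Agent.Q261.OS.DPR
import Pool.Agent.Q17.DC.Pkg

/-!
# Dade's alternating sums for a group and for direct products
-/

set_option autoImplicit false

open scoped Classical

noncomputable section

namespace Pool.Agent.Q17.OS

open Pool.Agent.H254R3.IN Pool.Agent.Y63.KR Pool.Agent.Q17.DC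
open Pool.Agent.Q111.OS

theorem prs : S_PRS := Pool.Agent.Q224.OS.t_PRS t_ADJ Pool.Agent.Q224.OS.t_WPX
theorem dpr : S_DPR := Pool.Agent.Q261.OS.t_DPR prs Pool.Agent.Q224.OS.t_ALX Pool.Agent.Q66.OS.t_PCN

/-- the irreducible character `θ` of the subgroup `L` of `G` is over the linear character `lam` of
`Z`, it has defect `d` and its block induces `B` -/
structure Cg {G : Type} [Group G] (p : ℕ) (O : ValuationSubring ℂ) (Z : Subgroup G)
    (lam : G → ℂ) (d : ℕ) (B : Set (G → ℂ)) (L : Subgroup G) (θ : L → ℂ) : Prop where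
  irr : IsIrr θ
  ind : ∀ χ ∈ B, ∀ x : G, omega χ x - ∑ᶠ y : {y : L // IsConj x (y : G)}, θ y / θ 1 ∈ O.nonunits
  lin : ∀ x y : L, (x : G) ∈ Z → θ (x * y) = lam x * θ y
  defect : ∃ n : ℕ, (n : ℂ) = θ 1 ∧ (Nat.card L).factorization p = d + n.factorization p

/-- Dade's alternating sum over the chains which start with `Z₀` -/
def DG {G : Type} [Group G] (p : ℕ) (O : ValuationSubring ℂ) (Z₀ Z : Subgroup G) (lam : G → ℂ)
    (d : ℕ) (B : Set (G → ℂ)) : ℤ :=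
  altX p ⊤ Z₀ fun σ => (Nat.card {θ : Ns ⊤ σ → ℂ // Cg p O Z lam d B (Ns ⊤ σ) θ} : ℤ)

/-- functions on `G` as functions on a subgroup equal to `⊤` -/
def BX {G : Type} [Group G] {X : Subgroup G} (hX : X = ⊤) (B : Set (G → ℂ)) : Set (X → ℂ) :=
  {χ | (fun g : G => χ ⟨g, by rw [hX]; trivial⟩) ∈ B}

lemma cnt_iff {G : Type} [Group G] {p : ℕ} {O : ValuationSubring ℂ} {Z : Subgroup G} {lam : G → ℂ}
    {d : ℕ} {B : Set (G → ℂ)} {H : Subgroup G} (ψ : (⊤ ⊓ H : Subgroup G) → ℂ) :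
    Cnt p O ⊤ Z lam (BX rfl B) Set.univ d H ψ ↔ Cg p O Z lam d B (⊤ ⊓ H : Subgroup G) ψ := by
  have hi : ∀ x : G, indc ⊤ (⊤ ⊓ H) ψ x =
      ∑ᶠ y : {y : (⊤ ⊓ H : Subgroup G) // IsConj x (y : G)}, ψ y / ψ 1 := by
    intro x
    unfold indc
    refine finsum_comp_equiv (Equiv.subtypeEquivRight fun y => ?_)
      (f := fun y : {y : (⊤ ⊓ H : Subgroup G) // IsConj x (y : G)} => ψ y / ψ 1)
    rw [isConj_iff]
    exact ⟨fun ⟨g, _, h⟩ => ⟨g, h⟩, fun ⟨g, h⟩ => ⟨g, Subgroup.mem_top g, h⟩⟩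
  have ho : ∀ (χ : G → ℂ) (x : G), omega (fun y : (⊤ : Subgroup G) => χ y) ⟨x, Subgroup.mem_top x⟩ =
      omega χ x := fun χ x => omega_comp χ Subgroup.topEquiv ⟨x, Subgroup.mem_top x⟩
  constructor
  · rintro ⟨h1, h2, h3, h4, -⟩
    refine ⟨h1, fun χ hχ x => ?_, h3, h4⟩
    have h5 := h2 (fun y : (⊤ : Subgroup G) => χ y) hχ ⟨x, Subgroup.mem_top x⟩
    rw [ho, hi] at h5
    exact h5
  · rintro ⟨h1, h2, h3, h4⟩
    refine ⟨h1, fun χ hχ x => ?_, h3, h4, ?_⟩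
    · have h5 := h2 _ hχ x
      rw [← ho, ← hi] at h5
      exact h5
    · refine Set.eq_univ_of_forall fun e => ⟨e, Subgroup.mem_top e, 1, H.one_mem, ?_, ?_⟩
      · rw [mul_one]
      · intro x x' hx
        have h6 : x' = x := Subtype.ext (by rw [hx]; group)
        rw [h6]

lemma DA_top {G : Type} [Group G] {p : ℕ} {O : ValuationSubring ℂ} {Z₀ Z : Subgroup G}
    {lam : G → ℂ} {d : ℕ} {B : Set (G → ℂ)} {X : Subgroup G} (hX : X = ⊤) {U : Set G}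
    (hU : U = Set.univ) : DA p O X Z₀ Z lam (BX hX B) U d = DG p O Z₀ Z lam d B := by
  subst hX hU
  unfold DA DG cn
  refine altX_congr fun σ _ => ?_
  congr 1
  exact Nat.card_congr (Equiv.subtypeEquivRight fun ψ => cnt_iff ψ)

lemma PB_top {G₁ G₂ : Type} [Group G₁] [Group G₂] (B₁ : Set (G₁ → ℂ)) (B₂ : Set (G₂ → ℂ)) :
    PB (BX (X := ⊤) rfl B₁) (BX (X := ⊤) rfl B₂) =
      BX (X := (⊤ : Subgroup G₁).prod ⊤) Subgroup.top_prod_top (TB B₁ B₂) := by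
  ext χ
  constructor
  · rintro ⟨χ₁, h1, χ₂, h2, h⟩
    exact ⟨_, h1, _, h2, funext fun x => h _⟩
  · rintro ⟨χ₁, h1, χ₂, h2, h⟩
    exact ⟨fun x => χ₁ x, h1, fun x => χ₂ x, h2, fun x => congrFun h x.1⟩

/-- the product formula -/
theorem prod_formula {p : ℕ} [Fact p.Prime] {O : ValuationSubring ℂ} (hO : (p : ℂ) ∈ O.nonunits)
    {G₁ G₂ : Type} [Group G₁] [Group G₂] [Fintype G₁] [Fintype G₂] (Z₁ C₁ : Subgroup G₁)
    (Z₂ C₂ : Subgroup G₂) [Z₁.Normal] [Z₂.Normal] (h1 : IsPGroup p Z₁) (h2 : IsPGroup p Z₂)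
    (hC₁ : C₁ ≤ Subgroup.center G₁) (hC₂ : C₂ ≤ Subgroup.center G₂) (lam₁ : G₁ → ℂ)
    (lam₂ : G₂ → ℂ) (hl₁ : lam₁ 1 = 1) (hl₂ : lam₂ 1 = 1) {B₁ : Set (G₁ → ℂ)} {B₂ : Set (G₂ → ℂ)}
    (hB₁ : IsBlock O B₁) (hB₂ : IsBlock O B₂) (d : ℕ) :
    DG p O (Z₁.prod Z₂) (C₁.prod C₂) (fun x => lam₁ x.1 * lam₂ x.2) d (TB B₁ B₂) =
      ∑ q ∈ Finset.range (d + 1), DG p O Z₁ C₁ lam₁ q B₁ * DG p O Z₂ C₂ lam₂ (d - q) B₂ := by
  have hbt : ∀ {G : Type} [Group G] {B : Set (G → ℂ)}, IsBlock O B →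
      IsBlock O (BX (X := (⊤ : Subgroup G)) rfl B) := by
    intro G _ B hB
    have h : BX (X := (⊤ : Subgroup G)) rfl B = CB (Subgroup.topEquiv (G := G)) B := by
      ext χ
      constructor
      · intro h
        exact ⟨_, h, rfl⟩
      · rintro ⟨χ, h, rfl⟩
        exact h
    rw [h]
    exact block_CB _ hB
  have h := dpr p O hO G₁ G₂ ⊤ Z₁ C₁ ⊤ Z₂ C₂ le_top le_top h1 h2
    (fun z hz => ⟨Subgroup.mem_top z, fun g _ => Subgroup.mem_center_iff.mp (hC₁ hz) g⟩)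
    (fun z hz => ⟨Subgroup.mem_top z, fun g _ => Subgroup.mem_center_iff.mp (hC₂ hz) g⟩)
    lam₁ lam₂ hl₁ hl₂ (BX rfl B₁) (BX rfl B₂) (hbt hB₁) (hbt hB₂) Set.univ Set.univ d
  rw [PB_top, DA_top _ Set.univ_prod_univ] at h
  rw [h]
  exact Finset.sum_congr rfl fun q _ => by rw [DA_top rfl rfl, DA_top rfl rfl]

/-- squares -/
lemma top_coeff {f g : ℕ → ℤ} {N : ℕ} (hN : ∀ d, N < d → f d = 0)
    (hg : ∀ d, g d = ∑ q ∈ Finset.range (d + 1), f q * f (d - q)) (h : ∀ d, g (2 * d) ≤ 0) (d : ℕ) :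
    f d = 0 := by
  by_contra hd
  have hfin : ((Finset.range (N + 1)).filter fun d => f d ≠ 0).Nonempty := by
    refine ⟨d, Finset.mem_filter.mpr ⟨Finset.mem_range.mpr ?_, hd⟩⟩
    by_contra h1
    exact hd (hN d (by omega))
  obtain ⟨m, hm, hmax⟩ := Finset.exists_max_image _ id hfin
  have hm' := (Finset.mem_filter.mp hm).2
  have hz : ∀ q, m < q → f q = 0 := by
    intro q hq
    by_contra h1
    have h2 : q ∈ (Finset.range (N + 1)).filter fun d => f d ≠ 0 := by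
      refine Finset.mem_filter.mpr ⟨Finset.mem_range.mpr ?_, h1⟩
      by_contra h3
      exact h1 (hN q (by omega))
    have h3 : q ≤ m := hmax q h2
    omega
  have h1 : g (2 * m) = f m * f m := by
    rw [hg, Finset.sum_eq_single m]
    · congr 2
      omega
    · intro q hq hqm
      rcases lt_or_gt_of_ne hqm with h2 | h2
      · rw [hz (2 * m - q) (by omega), mul_zero]
      · rw [hz q h2, zero_mul]
    · intro h2
      exact absurd (Finset.mem_range.mpr (by omega)) h2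
  have h2 : 0 < f m * f m := by
    have := mul_self_nonneg (f m)
    rcases this.lt_or_eq with h3 | h3
    · exact h3
    · exact absurd (mul_self_eq_zero.mp h3.symm) hm'
  have h3 := h m
  omega

end Pool.Agent.Q17.OS
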