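import Pool.Agent.Q17.OS.Grp

/-!
# One-sided inequalities
-/

set_option autoImplicit false

open scoped Classical

noncomputable section

namespace Pool.Agent.Q17.OS

open Pool.Agent.H254R3.IN Pool.Agent.Y63.KR Pool.Agent.Q17.DC
open Pool.Agent.Q111.OS

lemma altX_zero' {Γ : Type} [Group Γ] {p : ℕ} {X Z : Subgroup Γ} {w : Set (Subgroup Γ) → ℤ}
    (h : ∀ σ, w σ = 0) : altX p X Z w = 0 := by
  unfold altX
  refine finsum_eq_zero_of_forall_eq_zero fun c => ?_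
  rw [h, mul_zero]

lemma dvd_fact {p m n : ℕ} (hn : n ≠ 0) (h : m ∣ n) : m.factorization p ≤ n.factorization p :=
  (Nat.factorization_le_iff_dvd (fun h0 => hn (by rw [h0] at h; exact zero_dvd_iff.mp h)) hn).mpr
    h p

lemma DG_large {G : Type} [Group G] [Finite G] {p : ℕ} {O : ValuationSubring ℂ}
    {Z₀ Z : Subgroup G} {lam : G → ℂ} {B : Set (G → ℂ)} {d : ℕ}
    (hd : (Nat.card G).factorization p < d) : DG p O Z₀ Z lam d B = 0 := by
  unfold DG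
  refine altX_zero' fun σ => ?_
  have h : IsEmpty {θ : Ns ⊤ σ → ℂ // Cg p O Z lam d B (Ns ⊤ σ) θ} := by
    refine ⟨fun ⟨θ, h⟩ => ?_⟩
    obtain ⟨n, -, h2⟩ := h.defect
    have h3 := dvd_fact (p := p) Nat.card_pos.ne' (Subgroup.card_subgroup_dvd_card (Ns ⊤ σ))
    omega
  rw [Nat.card_of_isEmpty]
  rfl

lemma DA_large {E : Type} [Group E] [Finite E] {p : ℕ} {O : ValuationSubring ℂ}
    {G Z Zc : Subgroup E} {lam : E → ℂ} {B : Set (G → ℂ)} {U : Set E} {d : ℕ}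
    (hd : (Nat.card E).factorization p < d) : DA p O G Z Zc lam B U d = 0 := by
  unfold DA
  refine altX_zero' fun σ => ?_
  have h : IsEmpty {ψ : (G ⊓ chainStabilizer σ : Subgroup E) → ℂ //
      Cnt p O G Zc lam B U d (chainStabilizer σ) ψ} := by
    refine ⟨fun ⟨θ, h⟩ => ?_⟩
    obtain ⟨n, -, h2⟩ := h.defect
    have h3 := dvd_fact (p := p) Nat.card_pos.ne'
      (Subgroup.card_subgroup_dvd_card (G ⊓ chainStabilizer σ))
    omega
  unfold cn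
  rw [Nat.card_of_isEmpty]
  rfl

/-- one group -/
theorem one_group {p : ℕ} [Fact p.Prime] {O : ValuationSubring ℂ} (hO : (p : ℂ) ∈ O.nonunits)
    {G : Type} [Group G] [Fintype G] (Z₀ Z : Subgroup G) [Z₀.Normal] (h1 : IsPGroup p Z₀)
    (hC : Z ≤ Subgroup.center G) (lam : G → ℂ) (hl : lam 1 = 1) {B : Set (G → ℂ)}
    (hB : IsBlock O B) (h : ∀ d, DG p O (Z₀.prod Z₀) (Z.prod Z) (fun x => lam x.1 * lam x.2)
      (2 * d) (TB B B) ≤ 0) (d : ℕ) : DG p O Z₀ Z lam d B = 0 :=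
  top_coeff (f := fun d => DG p O Z₀ Z lam d B)
    (g := fun d => DG p O (Z₀.prod Z₀) (Z.prod Z) (fun x => lam x.1 * lam x.2) d (TB B B))
    (N := (Nat.card G).factorization p) (fun _ hd => DG_large hd)
    (fun d => prod_formula hO Z₀ Z Z₀ Z h1 h1 hC hC lam lam hl hl hB hB d) h d

/-- one group, the form with a normal subgroup -/
theorem one_pair {p : ℕ} [Fact p.Prime] {O : ValuationSubring ℂ} (hO : (p : ℂ) ∈ O.nonunits)
    {E : Type} [Group E] [Fintype E] (G Z₀ : Subgroup E) [G.Normal] [Z₀.Normal] (hZ : Z₀ ≤ G)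
    (h1 : IsPGroup p Z₀) {B : Set (G → ℂ)} (hB : IsBlock O B) (U : Set E)
    (h : ∀ d, DA p O (G.prod G) (Z₀.prod Z₀) ((⊥ : Subgroup E).prod ⊥) (fun _ => 1 * 1) (PB B B)
      (U ×ˢ U) (2 * d) ≤ 0) (d : ℕ) : DA p O G Z₀ ⊥ (fun _ => 1) B U d = 0 :=
  top_coeff (f := fun d => DA p O G Z₀ ⊥ (fun _ => 1) B U d)
    (g := fun d => DA p O (G.prod G) (Z₀.prod Z₀) ((⊥ : Subgroup E).prod ⊥) (fun _ => 1 * 1)
      (PB B B) (U ×ˢ U) d)
    (N := (Nat.card E).factorization p) (fun _ hd => DA_large hd)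
    (fun d => dpr p O hO E E G Z₀ ⊥ G Z₀ ⊥ hZ hZ h1 h1
      (fun z hz => by
        rw [Subgroup.mem_bot.mp hz]
        exact ⟨G.one_mem, fun g _ => by rw [mul_one, one_mul]⟩)
      (fun z hz => by
        rw [Subgroup.mem_bot.mp hz]
        exact ⟨G.one_mem, fun g _ => by rw [mul_one, one_mul]⟩)
      (fun _ => 1) (fun _ => 1) rfl rfl B B hB hB U U d) h d

/-- `Z` is the largest normal `p`-subgroup of `G` -/
structure Core {E : Type} [Group E] (p : ℕ) (G Z : Subgroup E) : Prop where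
  le : Z ≤ G
  isp : IsPGroup p Z
  norm : ∀ g ∈ G, ∀ z ∈ Z, g * z * g⁻¹ ∈ Z
  max : ∀ Q : Subgroup E, Q ≤ G → IsPGroup p Q → (∀ g ∈ G, ∀ z ∈ Q, g * z * g⁻¹ ∈ Q) → Q ≤ Z

lemma pgroup_prod {p : ℕ} {E F : Type} [Group E] [Group F] {P : Subgroup E} {Q : Subgroup F}
    (hP : IsPGroup p P) (hQ : IsPGroup p Q) : IsPGroup p (P.prod Q) := by
  rintro ⟨⟨x, y⟩, hx⟩
  obtain ⟨a, ha⟩ := hP ⟨x, hx.1⟩
  obtain ⟨b, hb⟩ := hQ ⟨y, hx.2⟩
  have ha' : x ^ p ^ a = 1 := congrArg Subtype.val ha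
  have hb' : y ^ p ^ b = 1 := congrArg Subtype.val hb
  refine ⟨a + b, Subtype.ext (Prod.ext ?_ ?_)⟩
  · change x ^ p ^ (a + b) = 1
    rw [pow_add, pow_mul, ha', one_pow]
  · change y ^ p ^ (a + b) = 1
    rw [pow_add, mul_comm, pow_mul, hb', one_pow]

lemma Core.prod {p : ℕ} {E F : Type} [Group E] [Group F] {G Z : Subgroup E} {H Y : Subgroup F}
    (h1 : Core p G Z) (h2 : Core p H Y) : Core p (G.prod H) (Z.prod Y) where
  le := Subgroup.prod_mono h1.le h2.le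
  isp := pgroup_prod h1.isp h2.isp
  norm := fun g hg z hz => ⟨h1.norm _ hg.1 _ hz.1, h2.norm _ hg.2 _ hz.2⟩
  max := by
    intro Q hQ hp hn x hx
    have hq1 : Q.map (MonoidHom.fst E F) ≤ Z := by
      refine h1.max _ ?_ (hp.map _) ?_
      · rintro _ ⟨y, hy, rfl⟩
        exact (hQ hy).1
      · rintro g hg _ ⟨y, hy, rfl⟩
        exact ⟨(g, 1) * y * (g, 1)⁻¹, hn (g, 1) ⟨hg, H.one_mem⟩ y hy, rfl⟩
    have hq2 : Q.map (MonoidHom.snd E F) ≤ Y := by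
      refine h2.max _ ?_ (hp.map _) ?_
      · rintro _ ⟨y, hy, rfl⟩
        exact (hQ hy).2
      · rintro g hg _ ⟨y, hy, rfl⟩
        exact ⟨(1, g) * y * (1, g)⁻¹, hn (1, g) ⟨G.one_mem, hg⟩ y hy, rfl⟩
    exact ⟨hq1 ⟨x, hx, rfl⟩, hq2 ⟨x, hx, rfl⟩⟩

lemma prod_lt {E F : Type} [Group E] [Group F] {Z D : Subgroup E} {Y C : Subgroup F}
    (h1 : Z < D) (h2 : Y < C) : Z.prod Y < D.prod C := by
  refine lt_of_le_of_ne (Subgroup.prod_mono h1.le h2.le) fun h => ?_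
  obtain ⟨x, hx, hx'⟩ := SetLike.exists_of_lt h1
  have h3 : ((x, 1) : E × F) ∈ D.prod C := ⟨hx, C.one_mem⟩
  rw [← h] at h3
  exact hx' h3.1

end Pool.Agent.Q17.OS
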