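import Mathlib

/-!
# Families of sequences closed under convolution
-/

set_option autoImplicit false

namespace Pool.Agent.Q17.OS

/-- the polynomial with the coefficients `f 0, ..., f N` -/
noncomputable def pl (f : ℕ → ℤ) (N : ℕ) : Polynomial ℤ :=
  ∑ d ∈ Finset.range (N + 1), Polynomial.monomial d (f d)

lemma pl_coeff {f : ℕ → ℤ} {N : ℕ} (hN : ∀ d, N < d → f d = 0) (d : ℕ) :
    (pl f N).coeff d = f d := by
  unfold pl
  rw [Polynomial.finsetSum_coeff]
  simp only [Polynomial.coeff_monomial]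
  rw [Finset.sum_ite_eq' (Finset.range (N + 1)) d]
  split_ifs with h
  · rfl
  · refine (hN d ?_).symm
    by_contra h1
    exact h (Finset.mem_range.mpr (by omega))

lemma conv {P Q : Polynomial ℤ} (d : ℕ) : (P * Q).coeff d =
    ∑ q ∈ Finset.range (d + 1), P.coeff q * Q.coeff (d - q) := by
  rw [Polynomial.coeff_mul]
  exact Finset.Nat.sum_antidiagonal_eq_sum_range_succ (fun i j => P.coeff i * Q.coeff j) d

/-- if the sequences of a family are closed under convolution and their members with index divisible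
by `M` are not positive then they vanish -/
theorem one_sided {ι : Type 1} (S : ι → ℕ → ℤ) (hb : ∀ i, ∃ N, ∀ d, N < d → S i d = 0)
    (hp : ∀ i j, ∃ k, ∀ d, S k d = ∑ q ∈ Finset.range (d + 1), S i q * S j (d - q)) (M : ℕ)
    (hM : 1 ≤ M) (h : ∀ i d, M ∣ d → S i d ≤ 0) (i : ι) (d : ℕ) : S i d = 0 := by
  obtain ⟨N, hN⟩ := hb i
  have key : ∀ n : ℕ, 1 ≤ n → ∃ k, ∀ d, S k d = ((pl (S i) N) ^ n).coeff d := by
    intro n hn
    induction n, hn using Nat.le_induction with
    | base => exact ⟨i, fun d => by rw [pow_one, pl_coeff hN]⟩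
    | succ n _ ih =>
      obtain ⟨k, hk⟩ := ih
      obtain ⟨l, hl⟩ := hp k i
      refine ⟨l, fun d => ?_⟩
      rw [hl, pow_succ, conv]
      exact Finset.sum_congr rfl fun q _ => by rw [hk, pl_coeff hN]
  by_contra hd
  have hP : pl (S i) N ≠ 0 := by
    intro h0
    have h1 := pl_coeff hN d
    rw [h0, Polynomial.coeff_zero] at h1
    exact hd h1.symm
  obtain ⟨k, hk⟩ := key (2 * M) (by omega)
  have h1 := h k (2 * M * (pl (S i) N).natDegree) ⟨2 * (pl (S i) N).natDegree, by ring⟩
  rw [hk, Polynomial.coeff_pow_mul_natDegree] at h1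
  have h2 : (0 : ℤ) < (pl (S i) N).leadingCoeff ^ (2 * M) := by
    rw [pow_mul]
    exact pow_pos (lt_of_le_of_ne (sq_nonneg _) (Ne.symm (pow_ne_zero 2
      (Polynomial.leadingCoeff_ne_zero.mpr hP)))) M
  omega

end Pool.Agent.Q17.OS
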